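import Pool.Agent.N659.HB.Stm8

/-!
# SD/OW: second moments of vectors (helper402 for helper659)
-/

set_option autoImplicit false
set_option maxHeartbeats 1000000

namespace Pool.Agent.N402.SD.OW

open MeasureTheory Filter Pool.Agent.W792.LL Pool.Agent.W792.WA Pool.Agent.N659.HB
open scoped Topology ENNReal

/-- the norm of a sum -/
lemma enorm_le_of_hasSum {ι : Type*} {f : ι → ℂ} {s : ℂ} (h : HasSum f s) :
    ‖s‖ₑ ≤ ∑' i, ‖f i‖ₑ := by
  refine le_of_tendsto ((continuous_enorm.tendsto s).comp h) (Eventually.of_forall fun F => ?_)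
  exact (enorm_sum_le F f).trans (ENNReal.sum_le_tsum F)

variable {d : ℕ}

lemma dl_self (a : Fin d → ℤ) : (dl a : l2 (Fin d → ℤ)) a = 1 := by
  unfold dl
  exact lp.single_apply_self _ _ _

lemma dl_ne (a x : Fin d → ℤ) (h : x ≠ a) : (dl a : l2 (Fin d → ℤ)) x = 0 := by
  unfold dl
  exact lp.single_apply_ne _ _ _ h

lemma single_eq (a : Fin d → ℤ) (c : ℂ) :
    (lp.single 2 a c : l2 (Fin d → ℤ)) = c • dl a := by
  unfold dl
  rw [← lp.single_smul, smul_eq_mul, mul_one]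

/-- matrix elements -/
lemma apply_le (T : l2 (Fin d → ℤ) →L[ℂ] l2 (Fin d → ℤ)) (u : l2 (Fin d → ℤ)) (x : Fin d → ℤ) :
    ‖T u x‖ₑ ≤ ∑' a, ‖T (dl a) x‖ₑ * ‖u a‖ₑ := by
  have h := lp.hasSum_single (p := 2) (by norm_num) u
  have h2 := (lp.evalCLM ℂ (fun _ : Fin d → ℤ => ℂ) 2 x).hasSum (T.hasSum h)
  refine (enorm_le_of_hasSum h2).trans (le_of_eq (tsum_congr fun a => ?_))
  have h3 : (lp.evalCLM ℂ (fun _ : Fin d → ℤ => ℂ) 2 x) (T (lp.single 2 a (u a))) =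
      u a * T (dl a) x := by
    rw [single_eq, map_smul, map_smul, smul_eq_mul]
    rfl
  rw [h3, enorm_mul, mul_comm]

/-- matrix elements of the adjoint -/
lemma adj_le (T : l2 (Fin d → ℤ) →L[ℂ] l2 (Fin d → ℤ)) (u : l2 (Fin d → ℤ)) (x : Fin d → ℤ) :
    ‖ContinuousLinearMap.adjoint T u x‖ₑ ≤ ∑' a, ‖T (dl x) a‖ₑ * ‖u a‖ₑ := by
  have h1 : ContinuousLinearMap.adjoint T u x = inner ℂ (T (dl x)) u := by
    rw [← ContinuousLinearMap.adjoint_inner_right]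
    unfold dl
    rw [lp.inner_single_left]
    simp
  have h2 := lp.hasSum_inner (𝕜 := ℂ) (T (dl x)) u
  rw [h1]
  refine (enorm_le_of_hasSum h2).trans (le_of_eq (tsum_congr fun a => ?_))
  rw [← enorm_mul]
  have : ‖inner ℂ ((T (dl x)) a) (u a)‖ = ‖T (dl x) a * u a‖ := by
    simp [mul_comm]
  rw [← ofReal_norm, ← ofReal_norm, this]

lemma norm_sq_eq (u : l2 (Fin d → ℤ)) : ENNReal.ofReal (‖u‖ ^ 2) = ∑' a, ‖u a‖ₑ ^ 2 := by
  have h := lp.hasSum_norm (p := 2) (by norm_num) u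
  simp only [ENNReal.toReal_ofNat, Real.rpow_ofNat] at h
  rw [← h.tsum_eq, ENNReal.ofReal_tsum_of_nonneg (fun a => by positivity) h.summable]
  refine tsum_congr fun a => ?_
  rw [← ofReal_norm, ENNReal.ofReal_pow (norm_nonneg _)]

/-- the Schur test -/
lemma schur {Γ V : Type} [Countable Γ] [MeasurableSpace V] (μ : Measure V)
    (k : Γ → Γ → V → ℝ≥0∞) (hk : ∀ x a, Measurable (k x a)) (U : Γ → ℝ≥0∞) (M : ℝ≥0∞)
    (hM : ∀ a, ∑' b, ∑' x, ∫⁻ v, k x a v * k x b v ∂μ ≤ M) :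
    ∫⁻ v, ∑' x, (∑' a, k x a v * U a) ^ 2 ∂μ ≤ 2 * M * ∑' a, U a ^ 2 := by
  have e1 : ∀ v, ∑' x, (∑' a, k x a v * U a) ^ 2 =
      ∑' x, ∑' a, ∑' b, U a * U b * (k x a v * k x b v) := by
    intro v
    refine tsum_congr fun x => ?_
    rw [pow_two, ← ENNReal.tsum_mul_right]
    refine tsum_congr fun a => ?_
    rw [← ENNReal.tsum_mul_left]
    refine tsum_congr fun b => ?_
    ring
  have m1 : ∀ x a b, Measurable fun v => U a * U b * (k x a v * k x b v) := by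
    intro x a b
    exact ((hk x a).mul (hk x b)).const_mul _
  have e2 : ∫⁻ v, ∑' x, (∑' a, k x a v * U a) ^ 2 ∂μ =
      ∑' x, ∑' a, ∑' b, U a * U b * ∫⁻ v, k x a v * k x b v ∂μ := by
    simp only [e1]
    rw [lintegral_tsum (fun x => (Measurable.ennreal_tsum fun a =>
      Measurable.ennreal_tsum fun b => m1 x a b).aemeasurable)]
    refine tsum_congr fun x => ?_
    rw [lintegral_tsum (fun a => (Measurable.ennreal_tsum fun b => m1 x a b).aemeasurable)]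
    refine tsum_congr fun a => ?_
    rw [lintegral_tsum (fun b => (m1 x a b).aemeasurable)]
    refine tsum_congr fun b => ?_
    exact lintegral_const_mul _ ((hk x a).mul (hk x b))
  have key : ∀ p q : ℝ≥0∞, p * q ≤ p ^ 2 + q ^ 2 := by
    intro p q
    rcases le_total p q with h | h
    · calc p * q ≤ q * q := mul_le_mul_left h q
        _ = q ^ 2 := (pow_two q).symm
        _ ≤ _ := le_add_self
    · calc p * q ≤ p * p := mul_le_mul_right h p
        _ = p ^ 2 := (pow_two p).symm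
        _ ≤ _ := le_self_add
  have e3 : ∑' x, ∑' a, ∑' b, U a * U b * ∫⁻ v, k x a v * k x b v ∂μ ≤
      ∑' x, ∑' a, ∑' b, (U a ^ 2 * ∫⁻ v, k x a v * k x b v ∂μ +
        U b ^ 2 * ∫⁻ v, k x a v * k x b v ∂μ) := by
    refine ENNReal.tsum_le_tsum fun x => ENNReal.tsum_le_tsum fun a =>
      ENNReal.tsum_le_tsum fun b => ?_
    rw [← add_mul]
    exact mul_le_mul_left (key _ _) _
  have e4 : ∑' x, ∑' a, ∑' b, U a ^ 2 * ∫⁻ v, k x a v * k x b v ∂μ ≤ M * ∑' a, U a ^ 2 := by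
    rw [ENNReal.tsum_comm, ← ENNReal.tsum_mul_left]
    refine ENNReal.tsum_le_tsum fun a => ?_
    calc ∑' x, ∑' b, U a ^ 2 * ∫⁻ v, k x a v * k x b v ∂μ
        = U a ^ 2 * ∑' b, ∑' x, ∫⁻ v, k x a v * k x b v ∂μ := by
          rw [ENNReal.tsum_comm, ← ENNReal.tsum_mul_left]
          refine tsum_congr fun b => ?_
          rw [ENNReal.tsum_mul_left]
      _ ≤ U a ^ 2 * M := by gcongr; exact hM a
      _ = M * U a ^ 2 := mul_comm _ _
  have e5 : ∑' x, ∑' a, ∑' b, U b ^ 2 * ∫⁻ v, k x a v * k x b v ∂μ ≤ M * ∑' a, U a ^ 2 := by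
    have : ∑' x, ∑' a, ∑' b, U b ^ 2 * ∫⁻ v, k x a v * k x b v ∂μ =
        ∑' x, ∑' a, ∑' b, U a ^ 2 * ∫⁻ v, k x a v * k x b v ∂μ := by
      refine tsum_congr fun x => ?_
      rw [ENNReal.tsum_comm]
      refine tsum_congr fun b => tsum_congr fun a => ?_
      simp only [mul_comm (k x a _)]
    rw [this]
    exact e4
  calc ∫⁻ v, ∑' x, (∑' a, k x a v * U a) ^ 2 ∂μ
      = ∑' x, ∑' a, ∑' b, U a * U b * ∫⁻ v, k x a v * k x b v ∂μ := e2
    _ ≤ _ := e3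
    _ = ∑' x, ∑' a, ∑' b, U a ^ 2 * ∫⁻ v, k x a v * k x b v ∂μ +
        ∑' x, ∑' a, ∑' b, U b ^ 2 * ∫⁻ v, k x a v * k x b v ∂μ := by
          simp only [ENNReal.tsum_add]
    _ ≤ M * ∑' a, U a ^ 2 + M * ∑' a, U a ^ 2 := add_le_add e4 e5
    _ = 2 * M * ∑' a, U a ^ 2 := by ring

/-- from the kernel to the operator -/
lemma op_bound {V : Type} [MeasurableSpace V] (μ : Measure V)
    (k : (Fin d → ℤ) → (Fin d → ℤ) → V → ℝ≥0∞) (hk : ∀ x a, Measurable (k x a)) (B : ℝ)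
    (hB : 0 ≤ B) (hM : ∀ a, ∑' b, ∑' x, ∫⁻ v, k x a v * k x b v ∂μ ≤ ENNReal.ofReal B)
    (T : V → l2 (Fin d → ℤ) →L[ℂ] l2 (Fin d → ℤ)) (u : l2 (Fin d → ℤ))
    (hT : ∀ v x, ‖T v u x‖ₑ ≤ ∑' a, k x a v * ‖u a‖ₑ) :
    ∫ v, ‖T v u‖ ^ 2 ∂μ ≤ 2 * B * ‖u‖ ^ 2 := by
  by_cases hi : Integrable (fun v => ‖T v u‖ ^ 2) μ
  · rw [integral_eq_lintegral_of_nonneg_ae (Eventually.of_forall fun v => by positivity)
      hi.aestronglyMeasurable]
    refine ENNReal.toReal_le_of_le_ofReal (by positivity) ?_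
    calc ∫⁻ v, ENNReal.ofReal (‖T v u‖ ^ 2) ∂μ
        ≤ ∫⁻ v, ∑' x, (∑' a, k x a v * ‖u a‖ₑ) ^ 2 ∂μ := by
          refine lintegral_mono fun v => ?_
          simp only [norm_sq_eq (T v u)]
          exact ENNReal.tsum_le_tsum fun x => pow_le_pow_left' (hT v x) 2
      _ ≤ 2 * ENNReal.ofReal B * ∑' a, ‖u a‖ₑ ^ 2 := schur μ k hk _ _ hM
      _ = ENNReal.ofReal (2 * B * ‖u‖ ^ 2) := by
          rw [← norm_sq_eq, ENNReal.ofReal_mul (by positivity), ENNReal.ofReal_mul (by norm_num),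
            ENNReal.ofReal_ofNat]
  · rw [integral_undef hi]
    positivity

/-- diagonal operators with bounded entries -/
lemma dia_apply (hD : S_DIA) {Γ : Type} (c : Γ → ℂ) (M : ℝ) (hc : ∀ x, ‖c x‖ ≤ M) (u : l2 Γ)
    (x : Γ) : dia c u x = c x * u x := by
  have hex : ∃ D : l2 Γ →L[ℂ] l2 Γ, ∀ u x, D u x = c x * u x := by
    have hM : (0 : ℝ) < |M| + 1 := by positivity
    have hMc : ((|M| + 1 : ℝ) : ℂ) ≠ 0 := by exact_mod_cast hM.ne'
    have h1 := hD Γ (fun x => c x / ((|M| + 1 : ℝ) : ℂ)) (by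
      intro x
      rw [norm_div, Complex.norm_real, Real.norm_eq_abs, abs_of_pos hM, div_le_one hM]
      have := hc x
      have := le_abs_self M
      linarith)
    refine ⟨((|M| + 1 : ℝ) : ℂ) • dia (fun x => c x / ((|M| + 1 : ℝ) : ℂ)), fun u x => ?_⟩
    rw [ContinuousLinearMap.smul_apply, lp.coeFn_smul, Pi.smul_apply, h1.1 u x, smul_eq_mul]
    field_simp
  unfold dia
  rw [dif_pos hex]
  exact Classical.choose_spec hex u x

theorem main : S_GR → S_RK → S_DIA → S_KB1 → S_OW := by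
  intro hGR hRK hDIA hKB d w θ _ hw hθ hθ1
  obtain ⟨C, γ₀, hC, hγ₀, H⟩ := hKB d w θ hw hθ hθ1
  refine ⟨2 * C, γ₀, by linarith, hγ₀, ?_⟩
  intro γ hγ hγ1 ζ hζ1 hζ2 hζ3 u
  have hK := H γ hγ hγ1 ζ hζ1 hζ2 hζ3
  have hm : ∀ x a, Measurable fun v : (Fin d → ℤ) → ℝ => ‖ge w γ ζ v x a‖ₑ := by
    intro x a
    have h := (hGR d w ζ.im (xs d γ ζ) hw.le hζ2 (fun k => by
      show (((γ * lap d k : ℝ) : ℂ) - ζ).im ≤ -ζ.im
      rw [Complex.sub_im, Complex.ofReal_im, zero_sub])).2 (dl a) x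
    exact h.enorm
  have hsym := (hRK d w γ ζ hw hγ.le hζ2).2.2.2.1
  have hb : ∀ v x y, ‖ge (d := d) w γ ζ v x y‖ ≤ 1 / ζ.im := fun v x y => (hsym v x y).2
  have hs : ∀ v x y, ge (d := d) w γ ζ v x y = ge w γ ζ v y x := fun v x y => (hsym v x y).1
  have hdg : ∀ v (u : l2 (Fin d → ℤ)) x, dg w γ ζ v u x = ge w γ ζ v x x * u x := by
    intro v u x
    unfold dg
    exact dia_apply hDIA _ (1 / ζ.im) (fun x => hb v x x) u x
  -- the kernels
  obtain ⟨k0, hk0⟩ : ∃ k0 : (Fin d → ℤ) → (Fin d → ℤ) → ((Fin d → ℤ) → ℝ) → ℝ≥0∞,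
    ∀ x a v, k0 x a v = ‖ge w γ ζ v x a‖ₑ := ⟨_, fun _ _ _ => rfl⟩
  obtain ⟨k1, hk1⟩ : ∃ k1 : (Fin d → ℤ) → (Fin d → ℤ) → ((Fin d → ℤ) → ℝ) → ℝ≥0∞,
    ∀ x a v, k1 x a v = if x = a then 0 else ‖ge w γ ζ v x a‖ₑ := ⟨_, fun _ _ _ => rfl⟩
  have m0 : ∀ x a, Measurable (k0 x a) := by
    intro x a
    have : k0 x a = fun v => ‖ge w γ ζ v x a‖ₑ := funext fun v => hk0 x a v
    rw [this]; exact hm x a
  have m1 : ∀ x a, Measurable (k1 x a) := by
    intro x a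
    by_cases h : x = a
    · have : k1 x a = fun _ => 0 := funext fun v => by rw [hk1, if_pos h]
      rw [this]; exact measurable_const
    · have : k1 x a = fun v => ‖ge w γ ζ v x a‖ₑ := funext fun v => by rw [hk1, if_neg h]
      rw [this]; exact hm x a
  have en : ∀ v x a b, ENNReal.ofReal (‖ge (d := d) w γ ζ v x a‖ * ‖ge w γ ζ v x b‖) =
      ‖ge (d := d) w γ ζ v x a‖ₑ * ‖ge w γ ζ v x b‖ₑ := by
    intro v x a b
    rw [ENNReal.ofReal_mul (norm_nonneg _), ofReal_norm, ofReal_norm]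
  have M0 : ∀ a, ∑' b, ∑' x, ∫⁻ v, k0 x a v * k0 x b v ∂(Pn (unif w) (Fin d → ℤ)) ≤
      ENNReal.ofReal (C / ζ.im) := by
    intro a
    refine le_trans (le_of_eq ?_) (hK a).1
    refine tsum_congr fun b => tsum_congr fun x => ?_
    simp only [hk0, en]
  have M1 : ∀ a, ∑' b, ∑' x, ∫⁻ v, k1 x a v * k1 x b v ∂(Pn (unif w) (Fin d → ℤ)) ≤
      ENNReal.ofReal (C * γ ^ (1 / 2 : ℝ) / ζ.im) := by
    intro a
    refine le_trans (le_of_eq ?_) (hK a).2.1
    refine tsum_congr fun b => tsum_congr fun x => ?_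
    by_cases h1 : x = a
    · rw [if_pos (Or.inl h1)]
      simp only [hk1, if_pos h1, zero_mul, lintegral_zero]
    · by_cases h2 : x = b
      · rw [if_pos (Or.inr h2)]
        simp only [hk1, if_pos h2, mul_zero, lintegral_zero]
      · rw [if_neg (not_or.2 ⟨h1, h2⟩)]
        simp only [hk1, if_neg h1, if_neg h2, en]
  have hB0 : 0 ≤ C / ζ.im := by positivity
  have hB1 : 0 ≤ C * γ ^ (1 / 2 : ℝ) / ζ.im := by positivity
  have T1 : ∀ v x a, ‖(gr w (xs d γ ζ) v - dg w γ ζ v) (dl a) x‖ₑ = k1 x a v := by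
    intro v x a
    have e : (gr w (xs d γ ζ) v - dg w γ ζ v) (dl a) x =
        ge w γ ζ v x a - ge w γ ζ v x x * (dl a : l2 (Fin d → ℤ)) x := by
      rw [← hdg]
      rfl
    rw [e, hk1]
    by_cases h : x = a
    · rw [if_pos h, h, dl_self, mul_one, sub_self, enorm_zero]
    · rw [if_neg h, dl_ne a x h, mul_zero, sub_zero]
  have k1s : ∀ x a v, k1 x a v = k1 a x v := by
    intro x a v
    rw [hk1, hk1]
    by_cases h : x = a
    · rw [if_pos h, if_pos h.symm]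
    · rw [if_neg h, if_neg (Ne.symm h), hs]
  refine ⟨?_, ?_, ?_, ?_⟩
  · refine (op_bound _ k0 m0 _ hB0 M0 (fun v => gr w (xs d γ ζ) v) u fun v x => ?_).trans
      (le_of_eq (by ring))
    refine (apply_le _ u x).trans (le_of_eq (tsum_congr fun a => ?_))
    rw [hk0]
    rfl
  · refine (op_bound _ k0 m0 _ hB0 M0
      (fun v => ContinuousLinearMap.adjoint (gr w (xs d γ ζ) v)) u fun v x => ?_).trans
      (le_of_eq (by ring))
    refine (adj_le _ u x).trans (le_of_eq (tsum_congr fun a => ?_))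
    rw [hk0, hs]
    rfl
  · refine (op_bound _ k1 m1 _ hB1 M1 (fun v => gr w (xs d γ ζ) v - dg w γ ζ v) u
      fun v x => ?_).trans (le_of_eq (by ring))
    refine (apply_le _ u x).trans (le_of_eq (tsum_congr fun a => ?_))
    rw [T1]
  · refine (op_bound _ k1 m1 _ hB1 M1
      (fun v => ContinuousLinearMap.adjoint (gr w (xs d γ ζ) v - dg w γ ζ v)) u
      fun v x => ?_).trans (le_of_eq (by ring))
    refine (adj_le _ u x).trans (le_of_eq (tsum_congr fun a => ?_))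
    rw [T1, k1s]

end Pool.Agent.N402.SD.OW
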